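import Mathlib
import Pool.Agent.K4H80.TSnarkMain

/-!
# A `T_6`-snark of girth six

Snarks here are cubic graphs which are cyclically 4-edge-connected, have girth at least five and have
no proper 3-edge-colouring; a `T_i`-snark is a snark with a spanning tree isomorphic to `T_i`, the tree
with all degrees in `{1, 3}` that has a vertex of degree three at distance exactly `i` from every leaf.
-/

set_option autoImplicit false

namespace Pool.Agent.Results.MP_b9c5ac_co.GirthSixSnark

open SimpleGraph

/-- `G` is cubic: every vertex has exactly three neighbours. -/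
def Cubic {V : Type} (G : SimpleGraph V) : Prop := ∀ v, (G.neighborSet v).ncard = 3

/-- `G` is cyclically `k`-edge-connected: no set `S` of fewer than `k` edges can be deleted to leave two
(different) components that each contain a cycle. -/
def CyclicallyEdgeConnected {V : Type} (k : ℕ) (G : SimpleGraph V) : Prop :=
  ∀ S : Finset (Sym2 V), S.card < k →
    ¬ ∃ (x y : V) (c : (G.deleteEdges (S : Set (Sym2 V))).Walk x x)
      (d : (G.deleteEdges (S : Set (Sym2 V))).Walk y y),
      c.IsCycle ∧ d.IsCycle ∧ ¬ (G.deleteEdges (S : Set (Sym2 V))).Reachable x y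

/-- `G` is a snark: a cubic graph that is cyclically 4-edge-connected, has girth at least 5 and has no
proper 3-edge-colouring (that is, its line graph is not 3-colourable). -/
def IsSnark {V : Type} (G : SimpleGraph V) : Prop :=
  Cubic G ∧ CyclicallyEdgeConnected 4 G ∧ 5 ≤ G.girth ∧ ¬ G.lineGraph.Colorable 3

/-- `T` is (a copy of) the tree `T_i`: a tree with all degrees in `{1, 3}` that has a vertex of degree
three at distance exactly `i` from every leaf. -/
def IsT {V : Type} (i : ℕ) (T : SimpleGraph V) : Prop :=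
  T.IsTree ∧ (∀ v, (T.neighborSet v).ncard = 1 ∨ (T.neighborSet v).ncard = 3) ∧
    ∃ r, (T.neighborSet r).ncard = 3 ∧ ∀ v, (T.neighborSet v).ncard = 1 → T.dist r v = i

/-- `G` is a `T_i`-snark: a snark with a spanning tree isomorphic to `T_i`. -/
def IsTSnark {V : Type} (i : ℕ) (G : SimpleGraph V) : Prop :=
  IsSnark G ∧ ∃ T : SimpleGraph V, T ≤ G ∧ IsT i T

/-- **There is a `T_6`-snark whose girth is at least `6`** (it has `3 * 2 ^ 6 - 2 = 190` vertices). -/
theorem result : ∃ G : SimpleGraph (Fin 190), IsTSnark 6 G ∧ 6 ≤ G.girth := by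
  refine ⟨Pool.Agent.K4H80.TSnark.G, ⟨⟨?_, ?_, ?_, ?_⟩, Pool.Agent.K4H80.TSnark.T,
    Pool.Agent.K4H80.TSnark.T_le, Pool.Agent.K4H80.TSnark.T_isTree, ?_, ?_⟩,
    Pool.Agent.K4H80.TSnark.girth_ge⟩
  · exact Pool.Agent.K4H80.TSnark.ncard_neighborSet
  · rintro S hS ⟨x, y, c, d, hc, hd, h⟩
    exact h (Pool.Agent.K4H80.TSnark.cyc4 S hS x y c d hc hd)
  · exact le_trans (by norm_num) Pool.Agent.K4H80.TSnark.girth_ge
  · exact Pool.Agent.K4H80.TSnark.not_colorable
  · intro v
    rcases Nat.lt_or_ge v.val 94 with h | h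
    · right
      by_cases h0 : v.val = 0
      · have : v = Pool.Agent.K4H80.TSnark.root := Fin.ext h0
        rw [this]
        exact Pool.Agent.K4H80.TSnark.T_neighbor_root
      · exact Pool.Agent.K4H80.TSnark.T_neighbor_mid v h h0
    · left
      exact Pool.Agent.K4H80.TSnark.T_neighbor_leaf v h
  · refine ⟨Pool.Agent.K4H80.TSnark.root, Pool.Agent.K4H80.TSnark.T_neighbor_root, ?_⟩
    intro v hv
    rw [Pool.Agent.K4H80.TSnark.dist_root]
    rcases Nat.lt_or_ge v.val 94 with h | h
    · exfalso
      by_cases h0 : v.val = 0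
      · have : v = Pool.Agent.K4H80.TSnark.root := Fin.ext h0
        rw [this, Pool.Agent.K4H80.TSnark.T_neighbor_root] at hv
        omega
      · rw [Pool.Agent.K4H80.TSnark.T_neighbor_mid v h h0] at hv
        omega
    · exact Pool.Agent.K4H80.TSnark.depth_leaf v.val v.2 h

end Pool.Agent.Results.MP_b9c5ac_co.GirthSixSnark
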